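import Mathlib

/-!
# Locally compact groups all of whose countable subgroups are minimal are metrizable

Auxiliary lemmas for problem MP_b90438_al (frozen statement S02845).
-/

set_option autoImplicit false

open Filter Topology Set

namespace Pool.Agent.Helper48_HM

variable {G : Type*} [Group G]

/-- If `H` is a minimal subgroup of the topological group `G` and `V` is a decreasing sequence of
neighbourhoods of `1` which generates a group topology on `H` that is Hausdorff, then this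
topology is the subspace topology. -/
theorem minimal_basis [t : TopologicalSpace G] [IsTopologicalGroup G] (H : Subgroup G)
    (hmin : ∀ τ : TopologicalSpace H, TopologicalSpace.induced (Subtype.val : H → G) t ≤ τ →
      @IsTopologicalGroup H τ _ → @T2Space H τ →
      τ = TopologicalSpace.induced (Subtype.val : H → G) t)
    (V : ℕ → Set G) (hV : ∀ n, V n ∈ 𝓝 (1 : G))
    (hmul : ∀ n, ∀ x ∈ V (n + 1), ∀ y ∈ V (n + 1), x * y ∈ V n)
    (hinv : ∀ n, ∀ x ∈ V n, x⁻¹ ∈ V n)
    (hconj : ∀ g ∈ H, ∀ n, ∃ m, ∀ x ∈ V m, g * x * g⁻¹ ∈ V n)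
    (hsep : ∀ g ∈ H, (∀ n, g ∈ V n) → g = 1)
    (U : Set G) (hU : U ∈ 𝓝 (1 : G)) : ∃ n, ∀ g ∈ H, g ∈ V n → g ∈ U := by
  have h1 : ∀ n, (1 : G) ∈ V n := fun n => mem_of_mem_nhds (hV n)
  have hanti1 : ∀ n, V (n + 1) ⊆ V n := fun n x hx => by
    simpa using hmul n x hx 1 (h1 _)
  have hanti : Antitone V := antitone_nat_of_succ_le hanti1
  let B : GroupFilterBasis H :=
    { sets := range (fun n => (Subtype.val : H → G) ⁻¹' V n)
      nonempty := ⟨_, ⟨0, rfl⟩⟩
      inter_sets := by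
        rintro _ _ ⟨n, rfl⟩ ⟨m, rfl⟩
        refine ⟨_, ⟨max n m, rfl⟩, ?_⟩
        intro x hx
        exact ⟨hanti (le_max_left n m) hx, hanti (le_max_right n m) hx⟩
      one' := by
        rintro _ ⟨n, rfl⟩
        exact h1 n
      mul' := by
        rintro _ ⟨n, rfl⟩
        refine ⟨_, ⟨n + 1, rfl⟩, ?_⟩
        rintro _ ⟨x, hx, y, hy, rfl⟩
        exact hmul n _ hx _ hy
      inv' := by
        rintro _ ⟨n, rfl⟩
        refine ⟨_, ⟨n, rfl⟩, ?_⟩
        intro x hx
        exact hinv n _ hx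
      conj' := by
        rintro g _ ⟨n, rfl⟩
        obtain ⟨m, hm⟩ := hconj g g.2 n
        refine ⟨_, ⟨m, rfl⟩, ?_⟩
        intro x hx
        exact hm _ hx }
  have hB : ∀ n, (Subtype.val : H → G) ⁻¹' V n ∈ B := fun n => ⟨n, rfl⟩
  have hle : TopologicalSpace.induced (Subtype.val : H → G) t ≤ B.topology := by
    rw [le_iff_nhds]
    intro x
    rw [B.nhds_eq]
    have : @nhds H (TopologicalSpace.induced (Subtype.val : H → G) t) x
        = map (fun y => x * y) (𝓝 (1 : H)) := (map_mul_left_nhds_one x).symm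
    rw [this]
    apply map_mono
    intro s hs
    obtain ⟨_, ⟨n, rfl⟩, hn⟩ := (FilterBasis.mem_filter_iff _).1 hs
    refine mem_of_superset ?_ hn
    exact (continuous_subtype_val.tendsto' (1 : H) (1 : G) rfl) (hV n)
  have htg : @IsTopologicalGroup H B.topology _ := B.isTopologicalGroup
  have ht2 : @T2Space H B.topology := by
    have := @GroupFilterBasis.t2Space_iff H _ B.topology B rfl
    rw [this]
    ext x
    simp only [mem_sInter, mem_singleton_iff]
    constructor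
    · intro hx
      have := hsep x x.2 (fun n => hx _ (hB n))
      exact Subtype.ext this
    · rintro rfl _ ⟨n, rfl⟩
      exact h1 n
  have heq := hmin B.topology hle htg ht2
  have hUH : (Subtype.val : H → G) ⁻¹' U ∈ @nhds H (TopologicalSpace.induced (Subtype.val : H → G) t) 1 :=
    (continuous_subtype_val.tendsto' (1 : H) (1 : G) rfl) hU
  rw [← heq, B.nhds_one_eq] at hUH
  obtain ⟨_, ⟨n, rfl⟩, hn⟩ := (FilterBasis.mem_filter_iff _).1 hUH
  exact ⟨n, fun g hg hgn => @hn ⟨g, hg⟩ hgn⟩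

/-- One step of the recursive construction of the neighbourhoods. -/
theorem exists_step [TopologicalSpace G] [IsTopologicalGroup G] (A : Set G)
    (hA : A ∈ 𝓝 (1 : G)) (g : ℕ → G) (n : ℕ) (W : Set G) (hW : W ∈ 𝓝 (1 : G)) :
    ∃ V : Set G, V ∈ 𝓝 (1 : G) ∧ (∀ x ∈ V, ∀ y ∈ V, x * y ∈ W) ∧ (∀ x ∈ V, x⁻¹ ∈ V) ∧ V ⊆ A ∧
      ∀ k ≤ n, ∀ x ∈ V, g k * x * (g k)⁻¹ ∈ W ∧ (g k)⁻¹ * x * g k ∈ W := by
  obtain ⟨V₁, hV₁, hV₁m⟩ := exists_nhds_one_split hW
  have hc : ∀ k, {x | g k * x * (g k)⁻¹ ∈ W ∧ (g k)⁻¹ * x * g k ∈ W} ∈ 𝓝 (1 : G) := by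
    intro k
    apply inter_mem
    · have : Tendsto (fun x => g k * x * (g k)⁻¹) (𝓝 1) (𝓝 1) :=
        Continuous.tendsto' (by fun_prop) _ _ (by simp)
      exact this hW
    · have : Tendsto (fun x => (g k)⁻¹ * x * g k) (𝓝 1) (𝓝 1) :=
        Continuous.tendsto' (by fun_prop) _ _ (by simp)
      exact this hW
  have hC : (⋂ k ∈ Finset.range (n + 1), {x | g k * x * (g k)⁻¹ ∈ W ∧ (g k)⁻¹ * x * g k ∈ W})
      ∈ 𝓝 (1 : G) := (biInter_finset_mem _).2 fun k _ => hc k
  have hD := inter_mem (inter_mem hV₁ hA) hC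
  refine ⟨_, inter_mem hD (inv_mem_nhds_one G hD), ?_, ?_, ?_, ?_⟩
  · rintro x ⟨⟨⟨hx, _⟩, _⟩, _⟩ y ⟨⟨⟨hy, _⟩, _⟩, _⟩
    exact hV₁m x hx y hy
  · rintro x ⟨hx, hx'⟩
    refine ⟨hx', ?_⟩
    rw [Set.mem_inv, inv_inv]
    exact hx
  · rintro x ⟨⟨⟨_, hx⟩, _⟩, _⟩
    exact hx
  · rintro k hk x ⟨⟨⟨_, _⟩, hx⟩, _⟩
    exact (mem_iInter₂.1 hx) k (Finset.mem_range.2 (by omega))

/-- Recursive construction of the neighbourhoods. -/
theorem exists_seq [TopologicalSpace G] [IsTopologicalGroup G] (A : ℕ → Set G)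
    (hA : ∀ n, A n ∈ 𝓝 (1 : G)) (g : ℕ → G) :
    ∃ V : ℕ → Set G, (∀ n, V n ∈ 𝓝 (1 : G)) ∧
      (∀ n, ∀ x ∈ V (n + 1), ∀ y ∈ V (n + 1), x * y ∈ V n) ∧ (∀ n, ∀ x ∈ V n, x⁻¹ ∈ V n) ∧
      (∀ n, V n ⊆ A n) ∧
      (∀ n, ∀ k ≤ n, ∀ x ∈ V (n + 1),
        g k * x * (g k)⁻¹ ∈ V n ∧ (g k)⁻¹ * x * g k ∈ V n) := by
  classical
  choose! F hF1 hF2 hF3 hF4 hF5 using fun (n : ℕ) (W : Set G) (hW : W ∈ 𝓝 (1 : G)) =>
    exists_step (A (n + 1)) (hA (n + 1)) g n W hW
  obtain ⟨V₀, hV₀, -, hV₀i, hV₀A, -⟩ := exists_step (A 0) (hA 0) g 0 univ univ_mem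
  let V : ℕ → Set G := fun n => Nat.rec V₀ (fun n W => F n W) n
  have hVs : ∀ n, V (n + 1) = F n (V n) := fun n => rfl
  have hV : ∀ n, V n ∈ 𝓝 (1 : G) := by
    intro n
    induction n with
    | zero => exact hV₀
    | succ n ih => rw [hVs]; exact hF1 n _ ih
  refine ⟨V, hV, ?_, ?_, ?_, ?_⟩
  · intro n x hx y hy
    exact hF2 n (V n) (hV n) x hx y hy
  · intro n
    cases n with
    | zero => exact hV₀i
    | succ n => exact hF3 n (V n) (hV n)
  · intro n
    cases n with
    | zero => exact hV₀A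
    | succ n => exact hF4 n (V n) (hV n)
  · intro n k hk x hx
    exact hF5 n (V n) (hV n) k hk x hx

/-- Evaluation of words is continuous. -/
theorem continuous_lift [TopologicalSpace G] [IsTopologicalGroup G] (w : FreeGroup ℕ) :
    Continuous fun h : ℕ → G => FreeGroup.lift h w := by
  induction w using FreeGroup.induction_on with
  | C1 => simpa using continuous_const
  | of i => simpa using continuous_apply i
  | inv_of i ih =>
    simp only [map_inv]
    exact ih.inv
  | mul x y hx hy =>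
    simp only [map_mul]
    exact hx.mul hy

/-- Existence of a generic sequence in a locally compact group. -/
theorem exists_generic [TopologicalSpace G] [IsTopologicalGroup G] [T2Space G]
    [LocallyCompactSpace G] :
    ∃ (K : Set G) (h : ℕ → G), IsCompact K ∧ (∀ i, h i ∈ interior K) ∧
      ∀ w : FreeGroup ℕ, FreeGroup.lift h w = 1 →
        ∃ (I : Set ℕ) (u : ℕ → Set G), I.Finite ∧ (∀ i, u i ∈ 𝓝 (h i)) ∧
          ∀ h' : ℕ → G, (∀ i, h' i ∈ K) → (∀ i ∈ I, h' i ∈ u i) → FreeGroup.lift h' w = 1 := by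
  obtain ⟨C, hC, hC1⟩ := exists_compact_mem_nhds (1 : G)
  let O := interior C
  have hO1 : (1 : G) ∈ O := mem_interior_iff_mem_nhds.2 hC1
  have hOo : IsOpen O := isOpen_interior
  let K : Set G := closure O
  have hK : IsCompact K := hC.closure_of_subset interior_subset
  have hOK : O ⊆ interior K := hOo.subset_interior_iff.2 subset_closure
  have : CompactSpace K := isCompact_iff_compactSpace.1 hK
  let X := ℕ → K
  let ev : FreeGroup ℕ → X → G := fun w h => FreeGroup.lift (fun i => (h i : G)) w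
  have hev : ∀ w, Continuous (ev w) := fun w =>
    (continuous_lift w).comp (continuous_pi fun i => continuous_subtype_val.comp (continuous_apply i))
  let S : FreeGroup ℕ → Set X := fun w => {h | ev w h = 1}
  have hS : ∀ w, IsClosed (S w) := fun w => isClosed_eq (hev w) continuous_const
  let E : FreeGroup ℕ → Set X := fun w => (frontier (S w))ᶜ
  have hEo : ∀ w, IsOpen (E w) := fun w => isClosed_frontier.isOpen_compl
  have hEd : ∀ w, Dense (E w) := fun w => by
    rw [← interior_eq_empty_iff_dense_compl]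
    exact interior_frontier (hS w)
  let D : ℕ → Set X := fun i => {h | (h i : G) ∈ O}
  have hDo : ∀ i, IsOpen (D i) := fun i =>
    hOo.preimage (continuous_subtype_val.comp (continuous_apply i))
  have hDd : ∀ i, Dense (D i) := by
    intro i
    have h1 : Dense ((Subtype.val : K → G) ⁻¹' O) := by
      intro x
      rw [closure_subtype]
      have : (Subtype.val : K → G) '' (Subtype.val ⁻¹' O) = O := by
        rw [Subtype.image_preimage_coe]
        exact inter_eq_right.2 subset_closure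
      rw [this]
      exact x.2
    exact h1.preimage (isOpenMap_eval i)
  have hdense : Dense ((⋂ w, E w) ∩ ⋂ i, D i) := by
    have := dense_iInter_of_isOpen (f := fun s : FreeGroup ℕ ⊕ ℕ => Sum.elim E D s)
      (by rintro (w | i); exacts [hEo w, hDo i]) (by rintro (w | i); exacts [hEd w, hDd i])
    rwa [iInter_sum] at this
  have : Nonempty X := ⟨fun _ => ⟨1, subset_closure hO1⟩⟩
  obtain ⟨h, hE, hD⟩ := hdense.nonempty
  refine ⟨K, fun i => (h i : G), hK, fun i => hOK (mem_iInter.1 hD i), ?_⟩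
  intro w hw
  have hint : h ∈ interior (S w) := by
    by_contra hcon
    exact mem_iInter.1 hE w ⟨subset_closure hw, hcon⟩
  have hnh : S w ∈ 𝓝 h := mem_interior_iff_mem_nhds.1 hint
  rw [nhds_pi, Filter.mem_pi] at hnh
  obtain ⟨I, hI, v, hv, hvS⟩ := hnh
  have : ∀ i, ∃ u ∈ 𝓝 (h i : G), (Subtype.val : K → G) ⁻¹' u ⊆ v i := fun i =>
    (mem_nhds_subtype K (h i) (v i)).1 (hv i)
  choose u hu huv using this
  refine ⟨I, u, hI, hu, ?_⟩
  intro h' h'K h'u
  have : (fun i => (⟨h' i, h'K i⟩ : K)) ∈ S w := by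
    apply hvS
    intro i hi
    exact huv i (h'u i hi)
  exact this

end Pool.Agent.Helper48_HM
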