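import Pool.Agent.Helper48_HM.Basic

/-!
# Locally compact groups all of whose countable subgroups are minimal are metrizable
-/

set_option autoImplicit false

open Filter Topology Set

namespace Pool.Agent.Helper48_HM

variable {G : Type*} [Group G]

/-- Metrizability from a countable basis of neighbourhoods of `1`. -/
theorem metrizable_of_countable [TopologicalSpace G] [IsTopologicalGroup G] [T2Space G]
    (h : (𝓝 (1 : G)).IsCountablyGenerated) : TopologicalSpace.MetrizableSpace G := by
  let := IsTopologicalGroup.rightUniformSpace G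
  have : (uniformity G).IsCountablyGenerated := by
    rw [uniformity_eq_comap_nhds_one']
    exact Filter.comap.isCountablyGenerated _ _
  exact UniformSpace.metrizableSpace

/-- The neighbourhoods `V n` form a basis at `1` when their intersection is trivial. -/
theorem countable_of_trivial [TopologicalSpace G] [IsTopologicalGroup G] [T2Space G]
    (C : Set G) (hC : IsCompact C) (V : ℕ → Set G) (hV : ∀ n, V n ∈ 𝓝 (1 : G))
    (hmul : ∀ n, ∀ x ∈ V (n + 1), ∀ y ∈ V (n + 1), x * y ∈ V n)
    (hinv : ∀ n, ∀ x ∈ V n, x⁻¹ ∈ V n) (hanti : Antitone V) (hVC : V 0 ⊆ C)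
    (htriv : ∀ x, (∀ n, x ∈ V n) → x = 1) : (𝓝 (1 : G)).IsCountablyGenerated := by
  have hcl : ∀ n, closure (V (n + 1)) ⊆ V n := by
    intro n x hx
    have hnx : {y | x⁻¹ * y ∈ V (n + 1)} ∈ 𝓝 x := by
      have : Tendsto (fun y => x⁻¹ * y) (𝓝 x) (𝓝 1) :=
        Continuous.tendsto' (by fun_prop) _ _ (by simp)
      exact this (hV (n + 1))
    obtain ⟨y, hy1, hy2⟩ := mem_closure_iff_nhds.1 hx _ hnx
    have h3 := hmul n y hy2 _ (hinv _ _ hy1)
    simpa using h3
  have hbasis : (𝓝 (1 : G)).HasBasis (fun _ : ℕ => True) V := by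
    refine ⟨fun U => ⟨fun hU => ?_, fun ⟨n, _, hn⟩ => mem_of_superset (hV n) hn⟩⟩
    obtain ⟨n, hn⟩ := exists_subset_nhds_of_isCompact (V := fun n => closure (V (n + 1)))
      (Antitone.directed_ge (fun a b hab => closure_mono (hanti (by omega))))
      (fun n => hC.of_isClosed_subset isClosed_closure
        ((hcl n).trans ((hanti (Nat.zero_le n)).trans hVC))) (U := U) (by
          intro x hx
          have : x = 1 := htriv x fun n => hcl n (mem_iInter.1 hx n)
          rw [this]
          exact hU)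
    exact ⟨n + 1, trivial, subset_closure.trans hn⟩
  exact HasCountableBasis.isCountablyGenerated ⟨hbasis, Set.to_countable _⟩

/-- **Main theorem.** A locally compact Hausdorff group in which every countable subgroup is
minimal (admits no strictly coarser Hausdorff group topology) is metrizable. -/
theorem metrizable_of_minimal [t : TopologicalSpace G] [IsTopologicalGroup G] [T2Space G]
    [LocallyCompactSpace G]
    (hmin : ∀ H : Subgroup G, Countable H → ∀ τ : TopologicalSpace H,
      TopologicalSpace.induced (Subtype.val : H → G) t ≤ τ →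
      @IsTopologicalGroup H τ _ → @T2Space H τ →
      τ = TopologicalSpace.induced (Subtype.val : H → G) t) :
    TopologicalSpace.MetrizableSpace G := by
  classical
  by_contra hnot
  obtain ⟨K, h, hK, hint, hgen⟩ := exists_generic (G := G)
  obtain ⟨C, hC, hC1⟩ := exists_compact_mem_nhds (1 : G)
  -- neighbourhoods attached to the words
  have hAex : ∀ w : FreeGroup ℕ, ∃ A ∈ 𝓝 (1 : G), (FreeGroup.lift h w ≠ 1 → FreeGroup.lift h w ∉ A) ∧
      (FreeGroup.lift h w = 1 → ∀ ν : ℕ → G, (∀ i, ν i ∈ A) → (∀ i, ν i * h i ∈ K) →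
        FreeGroup.lift (fun i => ν i * h i) w = 1) := by
    intro w
    by_cases hw : FreeGroup.lift h w = 1
    · obtain ⟨I, u, hI, hu, hIu⟩ := hgen w hw
      refine ⟨⋂ i ∈ I, {x | x * h i ∈ u i}, (biInter_mem hI).2 fun i _ => ?_, fun h' => (h' hw).elim,
        fun _ ν hν hνK => ?_⟩
      · have : Tendsto (fun x => x * h i) (𝓝 1) (𝓝 (h i)) :=
          Continuous.tendsto' (by fun_prop) _ _ (by simp)
        exact this (hu i)
      · exact hIu _ hνK fun i hi => mem_iInter₂.1 (hν i) i hi
    · exact ⟨{FreeGroup.lift h w}ᶜ, isOpen_compl_singleton.mem_nhds (Ne.symm hw), fun _ hmem => hmem rfl,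
        fun h' => (hw h').elim⟩
  choose A hA hA1 hA2 using hAex
  have hBex : ∀ i, {x | x * h i ∈ K} ∈ 𝓝 (1 : G) := by
    intro i
    have : Tendsto (fun x => x * h i) (𝓝 1) (𝓝 (h i)) :=
      Continuous.tendsto' (by fun_prop) _ _ (by simp)
    exact this (mem_interior_iff_mem_nhds.1 (hint i))
  obtain ⟨e, he⟩ := exists_surjective_nat (FreeGroup ℕ)
  obtain ⟨V, hV, hmul, hinv, hVA, hVc⟩ := exists_seq (G := G)
    (fun n => (A (e n) ∩ {x | x * h n ∈ K}) ∩ C)
    (fun n => inter_mem (inter_mem (hA _) (hBex n)) hC1) (fun n => FreeGroup.lift h (e n))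
  have h1 : ∀ n, (1 : G) ∈ V n := fun n => mem_of_mem_nhds (hV n)
  have hanti : Antitone V := antitone_nat_of_succ_le fun n x hx => by
    simpa using hmul n x hx 1 (h1 _)
  -- the intersection is not trivial
  obtain ⟨m, hmN, hm1⟩ : ∃ m, (∀ n, m ∈ V n) ∧ m ≠ 1 := by
    by_contra! hcon
    exact hnot (metrizable_of_countable (countable_of_trivial C hC V hV hmul hinv hanti
      (fun x hx => (hVA 0 hx).2) (fun x hx => hcon x hx)))
  -- closure properties of the intersection
  have hN1 : ∀ n, (1 : G) ∈ V n := h1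
  have hNmul : ∀ x y, (∀ n, x ∈ V n) → (∀ n, y ∈ V n) → ∀ n, x * y ∈ V n :=
    fun x y hx hy n => hmul n x (hx _) y (hy _)
  have hNinv : ∀ x, (∀ n, x ∈ V n) → ∀ n, x⁻¹ ∈ V n := fun x hx n => hinv n x (hx n)
  have hconj : ∀ w : FreeGroup ℕ, ∀ n, ∃ k, ∀ x ∈ V k,
      FreeGroup.lift h w * x * (FreeGroup.lift h w)⁻¹ ∈ V n := by
    intro w n
    obtain ⟨k, rfl⟩ := he w
    refine ⟨max n k + 1, fun x hx => ?_⟩
    exact hanti (le_max_left n k) (hVc (max n k) k (le_max_right n k) x hx).1
  have hNconj : ∀ (w : FreeGroup ℕ) (x : G), (∀ n, x ∈ V n) → ∀ n,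
      FreeGroup.lift h w * x * (FreeGroup.lift h w)⁻¹ ∈ V n := by
    intro w x hx n
    obtain ⟨k, hk⟩ := hconj w n
    exact hk x (hx k)
  -- key statement for a perturbed sequence
  have key : ∀ ν : ℕ → G, (∀ i n, ν i ∈ V n) → ∀ U ∈ 𝓝 (1 : G), ∃ n, ∀ w : FreeGroup ℕ,
      FreeGroup.lift (fun i => ν i * h i) w ∈ V n → FreeGroup.lift (fun i => ν i * h i) w ∈ U := by
    intro ν hν U hU
    have hK1 : ∀ w : FreeGroup ℕ, ∀ n,
        FreeGroup.lift (fun i => ν i * h i) w * (FreeGroup.lift h w)⁻¹ ∈ V n := by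
      intro w
      induction w using FreeGroup.induction_on with
      | C1 => simpa using hN1
      | of i => simpa using hν i
      | inv_of i ih =>
        intro n
        have := hNconj (FreeGroup.of i)⁻¹ _ (hNinv _ (hν i)) n
        simpa using this
      | mul x y hx hy =>
        intro n
        have := hNmul _ _ hx (hNconj x _ hy) n
        simp only [map_mul, mul_inv_rev]
        convert this using 1
        group
    have hsep : ∀ w : FreeGroup ℕ, (∀ n, FreeGroup.lift (fun i => ν i * h i) w ∈ V n) →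
        FreeGroup.lift (fun i => ν i * h i) w = 1 := by
      intro w hw
      have h2 : ∀ n, FreeGroup.lift h w ∈ V n := by
        intro n
        have := hNmul _ _ (hNinv _ (hK1 w)) hw n
        simpa using this
      have h3 : FreeGroup.lift h w = 1 := by
        by_contra h4
        obtain ⟨k, rfl⟩ := he w
        exact hA1 _ h4 (hVA k (h2 k)).1.1
      obtain ⟨k, rfl⟩ := he w
      exact hA2 _ h3 ν (fun i => (hVA k (hν i k)).1.1) (fun i => (hVA i (hν i i)).1.2)
    have hcount : Countable (FreeGroup.lift (fun i => ν i * h i)).range := by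
      have : (Set.range (FreeGroup.lift (fun i => ν i * h i))).Countable := Set.countable_range _
      exact this.to_subtype
    obtain ⟨n, hn⟩ := minimal_basis (FreeGroup.lift (fun i => ν i * h i)).range (hmin _ hcount)
      V hV hmul hinv (by
        rintro _ ⟨w, rfl⟩ n
        obtain ⟨k, hk⟩ := hconj w (n + 2)
        refine ⟨k, fun x hx => ?_⟩
        set a := FreeGroup.lift (fun i => ν i * h i) w * (FreeGroup.lift h w)⁻¹ with ha
        have ha' : FreeGroup.lift (fun i => ν i * h i) w = a * FreeGroup.lift h w := by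
          rw [ha]; group
        have h5 := hmul n _ (hmul (n + 1) a (hK1 w _) _ (hk x hx)) a⁻¹ (hinv _ _ (hK1 w _))
        rw [ha']
        convert h5 using 1
        group) (by
        rintro _ ⟨w, rfl⟩ hw
        exact hsep w hw) U hU
    exact ⟨n, fun w hw => hn _ ⟨w, rfl⟩ hw⟩
  -- a cluster point of the sequence
  obtain ⟨c, -, hc⟩ : ∃ c ∈ K, MapClusterPt c atTop h :=
    hK.exists_mapClusterPt (f := atTop) (u := h)
      (by
        simp only [le_principal_iff, mem_map]
        exact Filter.univ_mem' fun i => (interior_subset (hint i) : h i ∈ K))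
  have hfreq : ∀ j : ℕ, ∃ᶠ i in atTop, h i * c⁻¹ ∈ V (j + 1) := by
    intro j
    have : Tendsto (fun y => y * c⁻¹) (𝓝 c) (𝓝 1) :=
      Continuous.tendsto' (by fun_prop) _ _ (by simp)
    exact (mapClusterPt_iff_frequently.1 hc) _ (this (hV (j + 1)))
  obtain ⟨f, hf, hfV⟩ := extraction_forall_of_frequently hfreq
  -- the perturbation
  let ν : ℕ → G := fun i => if ∃ j, i = f (2 * j + 1) then m else 1
  have hν : ∀ i n, ν i ∈ V n := by
    intro i n
    by_cases hi : ∃ j, i = f (2 * j + 1)
    · simp only [ν, if_pos hi]; exact hmN n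
    · simp only [ν, if_neg hi]; exact h1 n
  have hνo : ∀ j, ν (f (2 * j + 1)) = m := fun j => if_pos ⟨j, rfl⟩
  have hνe : ∀ j, ν (f (2 * j)) = 1 := fun j => if_neg (by
    rintro ⟨k, hk⟩
    have := hf.injective hk
    omega)
  -- a neighbourhood separating
  have hW : ({m⁻¹}ᶜ : Set G) ∈ 𝓝 (1 : G) :=
    isOpen_compl_singleton.mem_nhds (by
      intro h'
      rw [mem_singleton_iff] at h'
      exact hm1 (inv_eq_one.1 h'.symm))
  obtain ⟨U, hU, hUm⟩ := exists_nhds_one_split hW
  have hU' := inter_mem hU (inv_mem_nhds_one G hU)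
  obtain ⟨n₁, hn₁⟩ := key (fun _ => 1) (fun _ n => h1 n) _ hU'
  obtain ⟨n₂, hn₂⟩ := key ν hν _ hU'
  let j := max n₁ n₂
  let w : FreeGroup ℕ := FreeGroup.of (f (2 * (j + 1))) * (FreeGroup.of (f (2 * (j + 1) + 1)))⁻¹
  have hx : FreeGroup.lift h w ∈ V (2 * (j + 1)) := by
    have e1 := hfV (2 * (j + 1))
    have e2 := hinv _ _ (hanti (by omega : 2 * (j + 1) + 1 ≤ 2 * (j + 1) + 1 + 1)
      (hfV (2 * (j + 1) + 1)))
    have e3 := hmul _ _ e1 _ e2
    have e4 : FreeGroup.lift h w
        = h (f (2 * (j + 1))) * c⁻¹ * (h (f (2 * (j + 1) + 1)) * c⁻¹)⁻¹ := by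
      simp [w]
    rw [e4]
    exact e3
  have hy : FreeGroup.lift (fun i => ν i * h i) w = FreeGroup.lift h w * m⁻¹ := by
    simp [w, hνo, hνe, mul_assoc]
  have hyV : FreeGroup.lift (fun i => ν i * h i) w ∈ V (2 * j + 1) := by
    rw [hy]
    have : 2 * (j + 1) = (2 * j + 1) + 1 := by ring
    rw [this] at hx
    exact hmul _ _ hx _ (hinv _ _ (hmN _))
  have hx' := hn₁ w (by
    simp only [one_mul]
    exact hanti (by simp only [j]; omega) hx)
  have hy' := hn₂ w (hanti (by simp only [j]; omega) hyV)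
  simp only [one_mul] at hx'
  have := hUm _ hx'.2 _ hy'.1
  rw [hy] at this
  apply this
  simp

end Pool.Agent.Helper48_HM
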